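import Pool.Agent.H24.Lib.R_seed8.H137R2.TwoPow.Main
import Pool.Agent.H24.Lib.R_seed8.H137R2.PFR.Wrap
set_option autoImplicit false

/-! From entropy to sets. -/

open scoped Classical Pointwise
set_option linter.unusedSectionVars false
set_option linter.unusedVariables false

namespace H137.TwoPow

open H137.PFR

variable {V : Type*} [AddCommGroup V] [Fintype V]

/-- uniform law on a finite set -/
noncomputable def unif (A : Finset V) : V → ℝ := fun x => if x ∈ A then (A.card : ℝ)⁻¹ else 0

theorem law_unif {A : Finset V} (hA : A.Nonempty) : Law (unif A) := by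
  have hc : (0 : ℝ) < A.card := by exact_mod_cast hA.card_pos
  refine ⟨fun x => ?_, ?_⟩
  · unfold unif
    split_ifs
    · positivity
    · exact le_refl _
  · unfold unif
    rw [Finset.sum_ite_mem, Finset.univ_inter, Finset.sum_const, nsmul_eq_mul,
      mul_inv_cancel₀ hc.ne']

theorem ent_unif {A : Finset V} (hA : A.Nonempty) : ent (unif A) = Real.log A.card := by
  have hc : (0 : ℝ) < A.card := by exact_mod_cast hA.card_pos
  unfold ent unif
  have h1 : ∀ x : V, Real.negMulLog (if x ∈ A then (A.card : ℝ)⁻¹ else 0) =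
      if x ∈ A then (A.card : ℝ)⁻¹ * Real.log A.card else 0 := by
    intro x
    split_ifs
    · unfold Real.negMulLog
      rw [Real.log_inv]
      ring
    · exact Real.negMulLog_zero
  simp_rw [h1]
  rw [Finset.sum_ite_mem, Finset.univ_inter, Finset.sum_const, nsmul_eq_mul, ← mul_assoc,
    mul_inv_cancel₀ hc.ne', one_mul]

theorem hsub_unif_le {A : Finset V} (hA : A.Nonempty) :
    hsub (unif A) (unif A) ≤ Real.log (A - A).card := by
  have hl := law_prod (law_unif hA) (law_unif hA)
  unfold hsub H
  refine ent_le_log_card (law_push hl _) (A - A) (fun x hx => ?_)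
  unfold push
  refine Finset.sum_eq_zero fun p _ => ?_
  split_ifs with h
  · unfold prod unif
    by_cases h1 : p.1 ∈ A
    · by_cases h2 : p.2 ∈ A
      · exfalso
        apply hx
        rw [← h]
        exact Finset.sub_mem_sub h1 h2
      · rw [if_neg h2, mul_zero]
    · rw [if_neg h1, zero_mul]
  · rfl

theorem push_unif {α : Type*} (A : Finset V) (f : V → α) (c : α) :
    push (unif A) f c = (A.filter (fun x => f x = c)).card / A.card := by
  unfold push unif
  have h1 : ∀ x : V, (if f x = c then (if x ∈ A then (A.card : ℝ)⁻¹ else 0) else 0) =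
      if x ∈ A.filter (fun x => f x = c) then (A.card : ℝ)⁻¹ else 0 := by
    intro x
    by_cases h2 : f x = c <;> by_cases h3 : x ∈ A <;> simp [h2, h3]
  simp_rw [h1]
  rw [Finset.sum_ite_mem, Finset.univ_inter, Finset.sum_const, nsmul_eq_mul]
  rfl

/-- Covering form for finite groups. -/
theorem cover_fin (s : ℕ) (hV : ∀ x : V, (2 ^ s) • x = 0) {K : ℝ} {A : Finset V}
    (hA : A.Nonempty) (hK : ((A + A).card : ℝ) ≤ K * A.card) :
    ∃ (P : AddSubgroup V) (T : Finset V), Nat.card P ≤ A.card ∧
      (T.card : ℝ) ≤ 2 * K ^ (98 * s + 1) ∧ ∀ a ∈ A, ∃ t ∈ T, a - t ∈ P := by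
  have hc : (0 : ℝ) < A.card := by exact_mod_cast hA.card_pos
  have hK1 : 1 ≤ K := by
    have h1 : (A.card : ℝ) ≤ (A + A).card := by
      exact_mod_cast Finset.card_le_card_add_right hA
    nlinarith
  have hK0 : 0 < K := by linarith
  have hμ := law_unif hA
  obtain ⟨P, hP, hP2⟩ := main hμ s
  -- the doubling constant
  have hκ : hsub (unif A) (unif A) - ent (unif A) ≤ 2 * Real.log K := by
    rw [ent_unif hA]
    have h1 := hsub_unif_le hA
    have h2 : ((A - A).card : ℝ) ≤ K ^ 2 * A.card := by
      have h3 := Finset.ruzsa_triangle_inequality_sub_add_add A A A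
      have h4 : ((A - A).card : ℝ) * A.card ≤ (A + A).card * (A + A).card := by
        exact_mod_cast h3
      have h5 : ((A + A).card : ℝ) * (A + A).card ≤ (K * A.card) * (K * A.card) :=
        mul_le_mul hK hK (by positivity) (by positivity)
      have h6 : ((A - A).card : ℝ) * A.card ≤ (K ^ 2 * A.card) * A.card := by
        nlinarith
      exact le_of_mul_le_mul_right h6 hc
    have h3 : (0 : ℝ) < (A - A).card := by
      exact_mod_cast (hA.sub hA).card_pos
    have h4 := Real.log_le_log h3 h2
    rw [Real.log_mul (by positivity) hc.ne', Real.log_pow] at h4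
    push_cast at h4
    linarith
  have hH0 : H (unif A) (fun x : V => (2 ^ s) • x) = 0 := by
    have h1 := H_unit hμ
    rw [← h1]
    refine H_congr_of hμ fun x y => ?_
    rw [hV, hV]
    simp
  set h := entMod (unif A) P with hh
  have hlow := ent_le_entMod hμ P
  have hPpos : (0 : ℝ) < Nat.card P := by exact_mod_cast Nat.card_pos
  have hlogK : 0 ≤ Real.log K := Real.log_nonneg hK1
  have hmain : 2 * h + Real.log (Nat.card P) ≤ Real.log A.card + 98 * s * Real.log K := by
    rw [hH0, ent_unif hA] at hP2
    rw [ent_unif hA] at hκ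
    have h1 : 49 * (s : ℝ) * (hsub (unif A) (unif A) - Real.log A.card) ≤
        49 * (s : ℝ) * (2 * Real.log K) := mul_le_mul_of_nonneg_left hκ (by positivity)
    linarith
  rw [ent_unif hA] at hlow
  -- a popular coset
  obtain ⟨c, hcc⟩ := exists_exp_le (law_push hμ (fun x : V => (QuotientAddGroup.mk x : V ⧸ P)))
  have hcc' : Real.exp (-h) ≤ push (unif A) (fun x : V => (QuotientAddGroup.mk x : V ⧸ P)) c :=
    hcc
  rw [push_unif] at hcc'
  set B := A.filter (fun x => (QuotientAddGroup.mk x : V ⧸ P) = c) with hB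
  have hBc : Real.exp (-h) * A.card ≤ B.card := by
    rw [le_div_iff₀ hc] at hcc'
    refine hcc'.trans (le_of_eq ?_)
    apply congrArg (fun S : Finset V => (S.card : ℝ))
    ext x
    simp only [hB, Finset.mem_filter]
  have hBpos : (0 : ℝ) < B.card := lt_of_lt_of_le (by positivity) hBc
  have hBne : B.Nonempty := by
    rw [← Finset.card_pos]
    exact_mod_cast hBpos
  have hAB : ((A + B).card : ℝ) ≤ (K * Real.exp h) * B.card := by
    have h1 : (A + B).card ≤ (A + A).card :=
      Finset.card_le_card (Finset.add_subset_add_left (Finset.filter_subset _ _))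
    have h2 : ((A + B).card : ℝ) ≤ (A + A).card := by exact_mod_cast h1
    have h3 : (A.card : ℝ) ≤ Real.exp h * B.card := by
      have h4 : Real.exp h * (Real.exp (-h) * A.card) ≤ Real.exp h * B.card :=
        mul_le_mul_of_nonneg_left hBc (Real.exp_pos _).le
      rw [← mul_assoc, ← Real.exp_add, add_neg_cancel, Real.exp_zero, one_mul] at h4
      exact h4
    calc ((A + B).card : ℝ) ≤ K * A.card := h2.trans hK
      _ ≤ K * (Real.exp h * B.card) := mul_le_mul_of_nonneg_left h3 hK0.le
      _ = _ := by ring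
  obtain ⟨F, hFA, hF, hAF⟩ := Finset.ruzsa_covering_add hBne hAB
  have hcov : ∀ a ∈ A, ∃ t ∈ F, a - t ∈ P := by
    intro a ha
    obtain ⟨t, ht, b, hb, rfl⟩ := Finset.mem_add.1 (hAF ha)
    refine ⟨t, ht, ?_⟩
    rw [add_sub_cancel_left]
    obtain ⟨b1, hb1, b2, hb2, rfl⟩ := Finset.mem_sub.1 hb
    have e1 := (Finset.mem_filter.1 hb1).2
    have e2 := (Finset.mem_filter.1 hb2).2
    have e3 : (QuotientAddGroup.mk b2 : V ⧸ P) = QuotientAddGroup.mk b1 := by rw [e1, e2]
    rw [QuotientAddGroup.eq] at e3
    have e4 : b1 - b2 = -b2 + b1 := by abel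
    rw [e4]
    exact e3
  have hexpK : ∀ n : ℕ, Real.exp (n * Real.log K) = K ^ n := by
    intro n
    rw [Real.exp_nat_mul, Real.exp_log hK0]
  by_cases hcase : Nat.card P ≤ A.card
  · refine ⟨P, F, hcase, ?_, hcov⟩
    have h1 : h ≤ 98 * s * Real.log K := by linarith
    have h2 : Real.exp h ≤ K ^ (98 * s) := by
      rw [← hexpK]
      apply Real.exp_le_exp.2
      push_cast
      linarith
    calc (F.card : ℝ) ≤ K * Real.exp h := hF
      _ ≤ K * K ^ (98 * s) := mul_le_mul_of_nonneg_left h2 hK0.le
      _ = K ^ (98 * s + 1) := by ring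
      _ ≤ 2 * K ^ (98 * s + 1) := by
          have : 0 < K ^ (98 * s + 1) := by positivity
          linarith
  · push Not at hcase
    -- shrink `P`
    obtain ⟨P', hP'P, hP'1, hP'2⟩ : ∃ P' ≤ P, Nat.card P' ≤ A.card ∧ A.card < 2 * Nat.card P' := by
      have hpg : IsPGroup 2 (Multiplicative V) := by
        intro g
        refine ⟨s, ?_⟩
        exact congrArg Multiplicative.ofAdd (hV (Multiplicative.toAdd g))
      have hA0 : A.card ≠ 0 := hA.card_pos.ne'
      have h1 : 2 ^ (Nat.log 2 A.card) ≤ A.card := Nat.pow_log_le_self 2 hA0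
      have h2 : A.card < 2 ^ (Nat.log 2 A.card + 1) := Nat.lt_pow_succ_log_self (by norm_num) _
      have h3 : 2 ^ (Nat.log 2 A.card) ≤ Nat.card (AddSubgroup.toSubgroup P) :=
        h1.trans hcase.le
      obtain ⟨Q, hQ, hQ2⟩ :=
        Sylow.exists_subgroup_le_card_pow_prime_of_le_card Nat.prime_two hpg h3
      refine ⟨Subgroup.toAddSubgroup' Q, fun x hx => hQ hx, ?_, ?_⟩
      · have h4 : Nat.card (Subgroup.toAddSubgroup' Q) = 2 ^ (Nat.log 2 A.card) := hQ2
        rw [h4]
        exact h1
      · have h4 : Nat.card (Subgroup.toAddSubgroup' Q) = 2 ^ (Nat.log 2 A.card) := hQ2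
        rw [h4]
        rw [pow_succ] at h2
        omega
    have hP'pos : (0 : ℝ) < Nat.card P' := by exact_mod_cast Nat.card_pos
    -- representatives of the cosets of `P'` in `P`
    set R : Finset V := (Finset.univ : Finset (P ⧸ P'.addSubgroupOf P)).image
      (fun q => ((Quotient.out q : P) : V)) with hR
    have hRcard : (R.card : ℝ) * Nat.card P' ≤ Nat.card P := by
      have h1 : R.card ≤ Nat.card (P ⧸ P'.addSubgroupOf P) := by
        rw [Nat.card_eq_fintype_card]
        exact Finset.card_image_le
      have h2 : Nat.card P = Nat.card (P ⧸ P'.addSubgroupOf P) * Nat.card (P'.addSubgroupOf P) :=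
        AddSubgroup.card_eq_card_quotient_mul_card_addSubgroup _
      have h3 : Nat.card (P'.addSubgroupOf P) = Nat.card P' :=
        Nat.card_congr (AddSubgroup.addSubgroupOfEquivOfLe hP'P).toEquiv
      rw [h3] at h2
      have h4 : R.card * Nat.card P' ≤ Nat.card P := by
        rw [h2]
        exact Nat.mul_le_mul_right _ h1
      exact_mod_cast h4
    have hRcov : ∀ x ∈ P, ∃ r ∈ R, x - r ∈ P' := by
      intro x hx
      refine ⟨_, Finset.mem_image.2 ⟨QuotientAddGroup.mk (⟨x, hx⟩ : P), Finset.mem_univ _, rfl⟩, ?_⟩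
      have h1 : (QuotientAddGroup.mk
          (Quotient.out (QuotientAddGroup.mk (⟨x, hx⟩ : P) : P ⧸ P'.addSubgroupOf P)) :
          P ⧸ P'.addSubgroupOf P) = QuotientAddGroup.mk (⟨x, hx⟩ : P) := Quotient.out_eq _
      rw [QuotientAddGroup.eq, AddSubgroup.mem_addSubgroupOf] at h1
      have h2 : x - ((Quotient.out (QuotientAddGroup.mk (⟨x, hx⟩ : P) :
          P ⧸ P'.addSubgroupOf P) : P) : V) =
          ((-(Quotient.out (QuotientAddGroup.mk (⟨x, hx⟩ : P) :
          P ⧸ P'.addSubgroupOf P) : P) + (⟨x, hx⟩ : P) : P) : V) := by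
        push_cast
        abel
      rw [h2]
      exact h1
    refine ⟨P', F + R, hP'1, ?_, ?_⟩
    · have h1 : (((F + R).card : ℕ) : ℝ) ≤ F.card * R.card := by
        exact_mod_cast Finset.card_add_le
      have h2 : (A.card : ℝ) ≤ 2 * Nat.card P' := by exact_mod_cast hP'2.le
      have h3 : (R.card : ℝ) * A.card ≤ 2 * Nat.card P := by
        calc (R.card : ℝ) * A.card ≤ R.card * (2 * Nat.card P') :=
              mul_le_mul_of_nonneg_left h2 (by positivity)
          _ = 2 * (R.card * Nat.card P') := by ring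
          _ ≤ 2 * Nat.card P := by linarith
      have h4 : Real.exp h * Nat.card P ≤ K ^ (98 * s) * A.card := by
        have h5 : 0 ≤ h := H_nonneg hμ _
        have h6 : h + Real.log (Nat.card P) ≤ Real.log A.card + 98 * s * Real.log K := by
          linarith
        have h7 := Real.exp_le_exp.2 h6
        rw [Real.exp_add, Real.exp_add, Real.exp_log hPpos, Real.exp_log hc] at h7
        have h8 : Real.exp (98 * (s : ℝ) * Real.log K) = K ^ (98 * s) := by
          rw [← hexpK]
          push_cast
          rfl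
        rw [h8] at h7
        linarith
      have h5 : ((F + R).card : ℝ) * A.card ≤ (2 * K ^ (98 * s + 1)) * A.card := by
        calc ((F + R).card : ℝ) * A.card ≤ (F.card * R.card) * A.card :=
              mul_le_mul_of_nonneg_right h1 hc.le
          _ = F.card * (R.card * A.card) := by ring
          _ ≤ (K * Real.exp h) * (2 * Nat.card P) := by
              apply mul_le_mul hF h3 (by positivity) (by positivity)
          _ = 2 * K * (Real.exp h * Nat.card P) := by ring
          _ ≤ 2 * K * (K ^ (98 * s) * A.card) :=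
              mul_le_mul_of_nonneg_left h4 (by positivity)
          _ = _ := by ring
      exact le_of_mul_le_mul_right h5 hc
    · intro a ha
      obtain ⟨t, ht, hat⟩ := hcov a ha
      obtain ⟨r, hr, har⟩ := hRcov _ hat
      refine ⟨t + r, Finset.add_mem_add ht hr, ?_⟩
      have : a - (t + r) = a - t - r := by abel
      rw [this]
      exact har

end H137.TwoPow
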