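import Pool.Agent.H24.Lib.R_seed8.H137R2.TwoPow.Sums
import Pool.Agent.H24.Lib.R_seed8.H137R2.PFR.Final
set_option autoImplicit false

/-! The stage lemma: from the entropic PFR theorem in characteristic two to a subgroup of the
two-torsion of a finite abelian group. -/

open scoped Classical
set_option linter.unusedSectionVars false
set_option linter.unusedVariables false

namespace H137.TwoPow

open H137.PFR

variable {V Q R : Type*} [AddCommGroup V] [Fintype V] [AddCommGroup Q] [Fintype Q]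
  [AddCommGroup R] [Fintype R]

/-- entropic polynomial Freiman-Ruzsa theorem in characteristic 2, in the form of a Ruzsa distance
to the uniform law of a subgroup -/
theorem pfr2d (h2 : ∀ x : V, x + x = 0) {μ : V → ℝ} (hμ : Law μ) :
    ∃ G : AddSubgroup V, 2 * entMod μ G + Real.log (Nat.card G) - ent μ ≤
      22 * (ent (conv μ μ) - ent μ) := by
  obtain ⟨μ₁, μ₂, hμ₁, hμ₂, hmin⟩ := exists_min μ
  have hd := dist_eq_zero h2 hμ hμ₁ hμ₂ hmin
  obtain ⟨G, hG1, he1, hG2, he2⟩ := hundred hμ₁ hμ₂ hd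
  refine ⟨G, ?_⟩
  have ht := hmin μ μ hμ hμ
  unfold tau at ht
  rw [hd] at ht
  have hκ : PFR.dist μ μ = ent (conv μ μ) - ent μ := by
    unfold PFR.dist
    ring
  have key : ∀ ν : V → ℝ, Law ν → (∀ h ∈ G, ∀ x, ν (x + h) = ν x) →
      ent ν = Real.log (Nat.card G) → PFR.dist μ ν ≤ 11 * PFR.dist μ μ →
      2 * entMod μ G + Real.log (Nat.card G) - ent μ ≤ 22 * (ent (conv μ μ) - ent μ) := by
    intro ν hν hinv hent hdist
    have e1 := entMod_add_log_le hμ hν G hinv
    have e4 : PFR.dist μ ν = ent (conv μ ν) - ent μ / 2 - ent ν / 2 := rfl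
    rw [hent] at e4
    linarith
  rcases le_total (PFR.dist μ μ₁) (PFR.dist μ μ₂) with h | h
  · exact key μ₁ hμ₁ hG1 he1 (by linarith)
  · exact key μ₂ hμ₂ hG2 he2 (by linarith)

/-- conditional law of `x` given `x + x = y` -/
noncomputable def zeta (μ : V → ℝ) (y : V) : V → ℝ :=
  fun b => (if b + b = y then μ b else 0) / push μ (fun x : V => x + x) y

theorem cnd_id (μ : V → ℝ) (y : V) :
    cnd μ (fun x : V => x) (fun x : V => x + x) y = zeta μ y := by
  funext b
  unfold cnd zeta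
  congr 1
  unfold push
  rw [Finset.sum_eq_single b]
  · by_cases h : b + b = y
    · simp [h]
    · simp [h]
  · intro c _ hc
    rw [if_neg]
    intro h
    exact hc (Prod.ext_iff.1 h).1
  · intro h
    exact absurd (Finset.mem_univ _) h

theorem law_zeta {μ : V → ℝ} (hμ : Law μ) {y : V} (hy : push μ (fun x : V => x + x) y ≠ 0) :
    Law (zeta μ y) := by
  rw [← cnd_id]
  exact law_cnd hμ _ _ hy

theorem cnd_sub {μ : V → ℝ} (hμ : Law μ) (y : V) :
    cnd (prod μ μ) (fun p : V × V => p.1 - p.2) (fun p : V × V => p.2 + p.2) y =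
      push (prod μ (zeta μ y)) (fun p : V × V => p.1 - p.2) := by
  funext a
  have h1 : push (prod μ μ) (fun p : V × V => p.2 + p.2) y = push μ (fun x : V => x + x) y := by
    rw [push_prod_snd hμ μ (fun x : V => x + x)]
  unfold cnd
  rw [h1]
  unfold push
  rw [Finset.sum_div]
  refine Finset.sum_congr rfl fun p _ => ?_
  obtain ⟨u, v⟩ := p
  unfold prod zeta push
  simp only [Prod.mk.injEq]
  by_cases h2 : u - v = a
  · by_cases h3 : v + v = y
    · simp only [h2, h3, and_self, if_true]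
      ring
    · simp only [h2, h3, and_false, if_false, if_true]
      ring
  · simp only [h2, false_and, if_false]
    ring

/-- selection of a good fibre of `x ↦ x + x` -/
theorem exists_fibre {μ : V → ℝ} (hμ : Law μ) :
    ∃ y : V, push μ (fun x : V => x + x) y ≠ 0 ∧
      hsub μ (zeta μ y) - ent (zeta μ y) / 2 ≤
        hsub μ μ - (ent μ - H μ (fun x : V => x + x)) / 2 := by
  have hl := law_prod hμ hμ
  have hp := law_push hμ (fun x : V => x + x)
  have h1 := H_chain hl (fun p : V × V => p.1 - p.2) (fun p : V × V => p.2 + p.2)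
  have h2 := H_chain hμ (fun x : V => x) (fun x : V => x + x)
  have h3 : push (prod μ μ) (fun p : V × V => p.2 + p.2) = push μ (fun x : V => x + x) :=
    push_prod_snd hμ μ (fun x : V => x + x)
  have h4 : H (prod μ μ) (fun p : V × V => p.2 + p.2) = H μ (fun x : V => x + x) :=
    H_pair_snd hμ (fun x : V => x + x)
  have h5 : H μ (fun x : V => (x, x + x)) = ent μ := by
    rw [← H_id μ]
    refine H_congr_of hμ fun x x' => ?_
    constructor
    · intro h
      exact (Prod.ext_iff.1 h).1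
    · intro h
      rw [h]
  have h6 := H_subadd hl (fun p : V × V => p.1 - p.2) (fun p : V × V => p.2 + p.2)
  simp only [cnd_sub hμ, h3, h4] at h1
  simp only [cnd_id, h5] at h2
  rw [h4] at h6
  by_contra hcon
  push Not at hcon
  have h7 : ∀ y, push μ (fun x : V => x + x) y *
      (hsub μ μ - (ent μ - H μ (fun x : V => x + x)) / 2) ≤
      push μ (fun x : V => x + x) y * (hsub μ (zeta μ y) - ent (zeta μ y) / 2) := by
    intro y
    by_cases h : push μ (fun x : V => x + x) y = 0
    · rw [h, zero_mul, zero_mul]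
    · exact mul_le_mul_of_nonneg_left (hcon y h).le (hp.1 y)
  obtain ⟨y₀, hy₀⟩ : ∃ y, push μ (fun x : V => x + x) y ≠ 0 := by
    by_contra h
    push Not at h
    have h8 := hp.2
    rw [Finset.sum_eq_zero (fun y _ => h y)] at h8
    exact absurd h8 (by norm_num)
  have h8 : ∑ y, push μ (fun x : V => x + x) y *
      (hsub μ μ - (ent μ - H μ (fun x : V => x + x)) / 2) <
      ∑ y, push μ (fun x : V => x + x) y * (hsub μ (zeta μ y) - ent (zeta μ y) / 2) := by
    refine Finset.sum_lt_sum (fun y _ => h7 y) ⟨y₀, Finset.mem_univ _, ?_⟩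
    exact mul_lt_mul_of_pos_left (hcon y₀ hy₀) (lt_of_le_of_ne (hp.1 y₀) (Ne.symm hy₀))
  rw [← Finset.sum_mul, hp.2, one_mul] at h8
  have h9 : ∑ y, push μ (fun x : V => x + x) y * (hsub μ (zeta μ y) - ent (zeta μ y) / 2) =
      ∑ y, push μ (fun x : V => x + x) y *
        ent (push (prod μ (zeta μ y)) (fun p : V × V => p.1 - p.2)) -
      (∑ y, push μ (fun x : V => x + x) y * ent (zeta μ y)) / 2 := by
    rw [Finset.sum_div, ← Finset.sum_sub_distrib]
    refine Finset.sum_congr rfl fun y _ => ?_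
    unfold hsub
    rw [← ent_push]
    ring
  rw [h9] at h8
  have h10 : hsub μ μ = H (prod μ μ) (fun p : V × V => p.1 - p.2) := rfl
  linarith

/-- the two-torsion subgroup -/
def tor2 (V : Type*) [AddCommGroup V] : AddSubgroup V where
  carrier := {x | x + x = 0}
  zero_mem' := by simp
  add_mem' := by
    intro a b ha hb
    simp only [Set.mem_setOf_eq] at ha hb ⊢
    rw [add_add_add_comm, ha, hb, add_zero]
  neg_mem' := by
    intro a ha
    simp only [Set.mem_setOf_eq] at ha ⊢
    rw [← neg_add, ha, neg_zero]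

theorem mem_tor2 {x : V} : x ∈ tor2 V ↔ x + x = 0 := Iff.rfl

/-- a law supported on a fibre of `x ↦ x + x` is a translate of a law on the two-torsion -/
theorem exists_translate {ζ : V → ℝ} (hζ : Law ζ) {y : V} (hy : ∀ z, ζ z ≠ 0 → z + z = y) :
    ∃ (z₀ : V) (τ : tor2 V → ℝ), Law τ ∧ ζ = push τ (fun t : tor2 V => z₀ + (t : V)) := by
  obtain ⟨z₀, hz₀⟩ : ∃ z, ζ z ≠ 0 := by
    by_contra h
    push Not at h
    have h8 := hζ.2
    rw [Finset.sum_eq_zero (fun z _ => h z)] at h8
    exact absurd h8 (by norm_num)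
  have h1 : z₀ + z₀ = y := hy z₀ hz₀
  have h2 : ζ = push (fun t : tor2 V => ζ (z₀ + (t : V))) (fun t : tor2 V => z₀ + (t : V)) := by
    funext a
    unfold push
    by_cases ha : a - z₀ ∈ tor2 V
    · rw [Finset.sum_eq_single (⟨a - z₀, ha⟩ : tor2 V)]
      · simp
      · intro t _ ht
        rw [if_neg]
        intro h
        apply ht
        apply Subtype.ext
        change (t : V) = a - z₀
        rw [← h]
        change (t : V) = z₀ + (t : V) - z₀
        abel
      · intro h
        exact absurd (Finset.mem_univ _) h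
    · have h3 : ζ a = 0 := by
        by_contra h
        apply ha
        have h4 := hy a h
        rw [mem_tor2]
        have h5 : a - z₀ + (a - z₀) = (a + a) - (z₀ + z₀) := by abel
        rw [h5, h4, h1, sub_self]
      rw [h3]
      symm
      refine Finset.sum_eq_zero fun t _ => ?_
      rw [if_neg]
      intro h
      apply ha
      rw [← h]
      have : z₀ + (t : V) - z₀ = t := by abel
      rw [this]
      exact t.2
  refine ⟨z₀, fun t : tor2 V => ζ (z₀ + (t : V)), ⟨fun t => hζ.1 _, ?_⟩, h2⟩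
  have h3 := hζ.2
  rw [h2] at h3
  unfold push at h3
  rw [Finset.sum_comm] at h3
  simpa using h3

variable {μ : V → ℝ} {τ : tor2 V → ℝ} {z₀ : V}

theorem hsub_push_right (hμ : Law μ) (hτ : Law τ) :
    hsub μ (push τ (fun t : tor2 V => z₀ + (t : V))) =
      H (prod μ τ) (fun p : V × tor2 V => p.1 - (z₀ + (p.2 : V))) := by
  have h1 : prod μ (push τ (fun t : tor2 V => z₀ + (t : V))) =
      push (prod μ τ) (fun p : V × tor2 V => (p.1, z₀ + (p.2 : V))) := by
    rw [← prod_push μ τ (fun x : V => x) (fun t : tor2 V => z₀ + (t : V)), push_id']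
  unfold hsub
  rw [h1, H_push]

theorem ent_push_translate (hτ : Law τ) :
    ent (push τ (fun t : tor2 V => z₀ + (t : V))) = ent τ := by
  rw [ent_push, ← H_id τ]
  refine H_congr_of hτ fun t t' => ?_
  constructor
  · intro h
    exact Subtype.ext (add_left_cancel h)
  · intro h
    rw [h]

/-- the fibre has small doubling -/
theorem fibre_doubling (hμ : Law μ) (hτ : Law τ) :
    H (prod τ τ) (fun p : tor2 V × tor2 V => (z₀ + (p.1 : V)) - (z₀ + (p.2 : V))) ≤
      2 * H (prod μ τ) (fun p : V × tor2 V => p.1 - (z₀ + (p.2 : V))) -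
      H μ (fun x : V => x + x) - ent μ := by
  have hl := law_prod (law_prod hτ hτ) hμ
  have h1 : H (prod (prod τ τ) μ) (fun p : (tor2 V × tor2 V) × V => p) +
      H (prod (prod τ τ) μ) (fun p : (tor2 V × tor2 V) × V =>
        (z₀ + (p.1.1 : V)) - (z₀ + (p.1.2 : V))) ≤
      H (prod (prod τ τ) μ) (fun p : (tor2 V × tor2 V) × V =>
        ((z₀ + (p.1.1 : V)) - p.2, p.2 - (z₀ + (p.1.2 : V)))) +
      H (prod (prod τ τ) μ) (fun p : (tor2 V × tor2 V) × V => p.1) := by
    refine H_sub_of hl ?_ ?_ ?_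
    · intro p q h
      simp only [Prod.mk.injEq] at h
      have e1 : ∀ a b c : V, a - b = (a - c) + (c - b) := fun a b c => by abel
      rw [e1 _ _ p.2, e1 (z₀ + (q.1.1 : V)) _ q.2, h.1, h.2]
    · intro p q h
      rw [h]
    · intro p q h3 h4
      simp only [Prod.mk.injEq] at h3
      have h5 := h3.1
      rw [h4] at h5
      exact Prod.ext h4 (sub_right_inj.1 h5)
  have h2 : H (prod (prod τ τ) μ) (fun p : (tor2 V × tor2 V) × V =>
        ((z₀ + (p.1.1 : V)) - p.2, p.2 - (z₀ + (p.1.2 : V)))) +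
      H (prod (prod τ τ) μ) (fun p : (tor2 V × tor2 V) × V => p.2 + p.2) ≤
      H (prod (prod τ τ) μ) (fun p : (tor2 V × tor2 V) × V => (z₀ + (p.1.1 : V)) - p.2) +
      H (prod (prod τ τ) μ) (fun p : (tor2 V × tor2 V) × V => p.2 - (z₀ + (p.1.2 : V))) := by
    refine H_sub_of hl ?_ ?_ ?_
    · intro p q h
      have e1 : p.1.1.1 + p.1.1.1 = (0 : V) := p.1.1.2
      have e2 : q.1.1.1 + q.1.1.1 = (0 : V) := q.1.1.2
      have e3 : p.2 + p.2 = (z₀ + z₀) - ((z₀ + (p.1.1 : V) - p.2) + (z₀ + (p.1.1 : V) - p.2)) := by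
        have : (z₀ + z₀) - ((z₀ + (p.1.1 : V) - p.2) + (z₀ + (p.1.1 : V) - p.2)) =
            p.2 + p.2 - (p.1.1.1 + p.1.1.1) := by abel
        rw [this, e1, sub_zero]
      have e4 : q.2 + q.2 = (z₀ + z₀) - ((z₀ + (q.1.1 : V) - q.2) + (z₀ + (q.1.1 : V) - q.2)) := by
        have : (z₀ + z₀) - ((z₀ + (q.1.1 : V) - q.2) + (z₀ + (q.1.1 : V) - q.2)) =
            q.2 + q.2 - (q.1.1.1 + q.1.1.1) := by abel
        rw [this, e2, sub_zero]
      rw [e3, e4, h]
    · intro p q h
      have e1 : p.1.2.1 + p.1.2.1 = (0 : V) := p.1.2.2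
      have e2 : q.1.2.1 + q.1.2.1 = (0 : V) := q.1.2.2
      have e3 : p.2 + p.2 = (z₀ + z₀) + ((p.2 - (z₀ + (p.1.2 : V))) + (p.2 - (z₀ + (p.1.2 : V)))) := by
        have : (z₀ + z₀) + ((p.2 - (z₀ + (p.1.2 : V))) + (p.2 - (z₀ + (p.1.2 : V)))) =
            p.2 + p.2 - (p.1.2.1 + p.1.2.1) := by abel
        rw [this, e1, sub_zero]
      have e4 : q.2 + q.2 = (z₀ + z₀) + ((q.2 - (z₀ + (q.1.2 : V))) + (q.2 - (z₀ + (q.1.2 : V)))) := by
        have : (z₀ + z₀) + ((q.2 - (z₀ + (q.1.2 : V))) + (q.2 - (z₀ + (q.1.2 : V)))) =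
            q.2 + q.2 - (q.1.2.1 + q.1.2.1) := by abel
        rw [this, e2, sub_zero]
      rw [e3, e4, h]
    · intro p q h3 h4
      exact Prod.ext h3 h4
  have h3 : H (prod (prod τ τ) μ) (fun p : (tor2 V × tor2 V) × V => (z₀ + (p.1.1 : V)) - p.2) =
      H (prod μ τ) (fun p : V × tor2 V => p.1 - (z₀ + (p.2 : V))) := by
    rw [H_triple_13 hτ (fun p : tor2 V × V => (z₀ + (p.1 : V)) - p.2), H_swap]
    refine H_congr_of (law_prod hμ hτ) fun p q => ?_
    change z₀ + (p.2 : V) - p.1 = z₀ + (q.2 : V) - q.1 ↔ _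
    rw [← neg_sub p.1 (z₀ + (p.2 : V)), ← neg_sub q.1 (z₀ + (q.2 : V)), neg_inj]
  have h4 : H (prod (prod τ τ) μ) (fun p : (tor2 V × tor2 V) × V => p.2 - (z₀ + (p.1.2 : V))) =
      H (prod μ τ) (fun p : V × tor2 V => p.1 - (z₀ + (p.2 : V))) := by
    rw [H_triple_23 hτ (fun p : tor2 V × V => p.2 - (z₀ + (p.1 : V))), H_swap]
  have h5 : H (prod (prod τ τ) μ) (fun p : (tor2 V × tor2 V) × V => p.2 + p.2) =
      H μ (fun x : V => x + x) :=
    H_pair_snd (law_prod hτ hτ) (fun x : V => x + x)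
  have h6 : H (prod (prod τ τ) μ) (fun p : (tor2 V × tor2 V) × V => p.1) = ent τ + ent τ := by
    rw [H_triple_12 hμ (fun p : tor2 V × tor2 V => p), H_full2 hτ hτ]
  have h7 : H (prod (prod τ τ) μ) (fun p : (tor2 V × tor2 V) × V =>
        (z₀ + (p.1.1 : V)) - (z₀ + (p.1.2 : V))) =
      H (prod τ τ) (fun p : tor2 V × tor2 V => (z₀ + (p.1 : V)) - (z₀ + (p.2 : V))) :=
    H_triple_12 hμ (fun p : tor2 V × tor2 V => (z₀ + (p.1 : V)) - (z₀ + (p.2 : V)))
  rw [H_full3 hτ hτ hμ] at h1
  linarith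

/-- **Stage lemma.** -/
theorem stage {μ : V → ℝ} (hμ : Law μ) :
    ∃ W : AddSubgroup V, (∀ x ∈ W, x + x = 0) ∧
      2 * entMod μ W + Real.log (Nat.card W) ≤
        46 * (hsub μ μ - ent μ) + ent μ + H μ (fun x : V => x + x) := by
  obtain ⟨y, hy0, hy⟩ := exists_fibre hμ
  have hζ := law_zeta hμ hy0
  have hsupp : ∀ z, zeta μ y z ≠ 0 → z + z = y := by
    intro z hz
    by_contra h
    apply hz
    unfold zeta
    rw [if_neg h, zero_div]
  obtain ⟨z₀, τ, hτ, hζτ⟩ := exists_translate hζ hsupp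
  rw [hζτ, ent_push_translate hτ, hsub_push_right hμ hτ] at hy
  have hfd := fibre_doubling (z₀ := z₀) hμ hτ
  have h2 : ∀ x : tor2 V, x + x = 0 := fun x => Subtype.ext x.2
  obtain ⟨W', hW'⟩ := pfr2d h2 hτ
  have hconv : ent (conv τ τ) =
      H (prod τ τ) (fun p : tor2 V × tor2 V => (z₀ + (p.1 : V)) - (z₀ + (p.2 : V))) := by
    unfold conv
    rw [ent_push]
    refine H_congr_of (law_prod hτ hτ) fun p q => ?_
    have e1 : ∀ p : tor2 V × tor2 V, (z₀ + (p.1 : V)) - (z₀ + (p.2 : V)) = ((p.1 + p.2 : tor2 V) : V) := by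
      intro p
      have e2 : p.2.1 + p.2.1 = (0 : V) := p.2.2
      have e3 : (z₀ + (p.1 : V)) - (z₀ + (p.2 : V)) = (p.1.1 + p.2.1) - (p.2.1 + p.2.1) := by abel
      rw [e3, e2, sub_zero]
      rfl
    rw [e1, e1]
    exact ⟨fun h => congrArg _ h, fun h => Subtype.ext h⟩
  rw [hconv] at hW'
  refine ⟨W'.map (tor2 V).subtype, ?_, ?_⟩
  · intro x hx
    obtain ⟨t, _, rfl⟩ := AddSubgroup.mem_map.1 hx
    exact t.2
  · have hcard : Nat.card (W'.map (tor2 V).subtype) = Nat.card W' :=
      AddSubgroup.card_map_of_injective (tor2 V).subtype_injective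
    rw [hcard]
    have hl := law_prod hμ hτ
    have h3 : H (prod μ τ) (fun p : V × tor2 V => p) +
        H (prod μ τ) (fun p : V × tor2 V =>
          (QuotientAddGroup.mk p.1 : V ⧸ W'.map (tor2 V).subtype)) ≤
        H (prod μ τ) (fun p : V × tor2 V => (p.1 - (z₀ + (p.2 : V)),
          (QuotientAddGroup.mk (z₀ + (p.2 : V)) : V ⧸ W'.map (tor2 V).subtype))) +
        H (prod μ τ) (fun p : V × tor2 V => p.1) := by
      refine H_sub_of hl ?_ ?_ ?_
      · intro p q h
        simp only [Prod.mk.injEq] at h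
        have e1 : ∀ p : V × tor2 V,
            (QuotientAddGroup.mk p.1 : V ⧸ W'.map (tor2 V).subtype) =
            QuotientAddGroup.mk (p.1 - (z₀ + (p.2 : V))) +
              QuotientAddGroup.mk (z₀ + (p.2 : V)) := by
          intro p
          rw [← QuotientAddGroup.mk_add]
          congr 1
          abel
        rw [e1 p, e1 q, h.1, h.2]
      · intro p q h
        rw [h]
      · intro p q h3 h4
        simp only [Prod.mk.injEq] at h3
        have h5 := h3.1
        rw [h4] at h5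
        exact Prod.ext h4 (Subtype.ext (add_left_cancel (sub_right_inj.1 h5)))
    have h4 := H_add_of hl (X := fun p : V × tor2 V => p.1 - (z₀ + (p.2 : V)))
      (Y := fun p : V × tor2 V =>
        (QuotientAddGroup.mk (z₀ + (p.2 : V)) : V ⧸ W'.map (tor2 V).subtype))
      (W := fun p : V × tor2 V => (p.1 - (z₀ + (p.2 : V)),
          (QuotientAddGroup.mk (z₀ + (p.2 : V)) : V ⧸ W'.map (tor2 V).subtype)))
      (fun p q h5 h6 => Prod.ext h5 h6)
    have h5 : H (prod μ τ) (fun p : V × tor2 V =>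
        (QuotientAddGroup.mk (z₀ + (p.2 : V)) : V ⧸ W'.map (tor2 V).subtype)) = entMod τ W' := by
      rw [H_pair_snd hμ (fun t : tor2 V =>
        (QuotientAddGroup.mk (z₀ + (t : V)) : V ⧸ W'.map (tor2 V).subtype))]
      unfold entMod
      refine H_congr_of hτ fun t t' => ?_
      rw [QuotientAddGroup.eq, QuotientAddGroup.eq]
      have e1 : -(z₀ + (t : V)) + (z₀ + (t' : V)) = ((-t + t' : tor2 V) : V) := by
        push_cast
        abel
      rw [e1]
      constructor
      · intro h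
        obtain ⟨u, hu, hu2⟩ := AddSubgroup.mem_map.1 h
        have : u = -t + t' := Subtype.ext hu2
        rw [← this]
        exact hu
      · intro h
        exact AddSubgroup.mem_map.2 ⟨_, h, rfl⟩
    have h6 : H (prod μ τ) (fun p : V × tor2 V =>
        (QuotientAddGroup.mk p.1 : V ⧸ W'.map (tor2 V).subtype)) =
        entMod μ (W'.map (tor2 V).subtype) :=
      H_pair_fst hτ (fun x : V => (QuotientAddGroup.mk x : V ⧸ W'.map (tor2 V).subtype))
    have h7 : H (prod μ τ) (fun p : V × tor2 V => p.1) = ent μ := by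
      rw [H_pair_fst hτ (fun x : V => x), H_id]
    rw [H_full2 hμ hτ] at h3
    linarith

end H137.TwoPow
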