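import Pool.Agent.H24.Lib.R_seed8.H137R2.PFR.Kvm
set_option autoImplicit false

/-! Entropy tools: functional dependence forms of the Shannon inequalities. -/

open scoped Classical
set_option linter.unusedSectionVars false
set_option linter.unusedVariables false

namespace H137.TwoPow

open H137.PFR

variable {Ω Ω' Ω'' α β γ δ : Type*} [Fintype Ω] [Fintype Ω'] [Fintype Ω''] [Fintype α] [Fintype β]
  [Fintype γ] [Fintype δ]

theorem law_nonempty {w : Ω → ℝ} (hw : Law w) : Nonempty Ω := by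
  by_contra h
  rw [not_nonempty_iff] at h
  have := hw.2
  rw [Finset.univ_eq_empty, Finset.sum_empty] at this
  exact absurd this (by norm_num)

/-- if `Y` is a function of `X` then `H Y ≤ H X` -/
theorem H_le_of {w : Ω → ℝ} (hw : Law w) {X : Ω → α} {Y : Ω → β}
    (h : ∀ ω ω', X ω = X ω' → Y ω = Y ω') : H w Y ≤ H w X := by
  obtain ⟨ω₀⟩ := law_nonempty hw
  have hf : Function.FactorsThrough Y X := fun a b hab => h a b hab
  have h1 : Y = (fun ω => (Function.extend X Y (fun _ => Y ω₀)) (X ω)) := by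
    funext ω
    exact (hf.extend_apply (fun _ => Y ω₀) ω).symm
  rw [h1]
  exact H_comp_le hw X _

theorem H_congr_of {w : Ω → ℝ} (hw : Law w) {X : Ω → α} {Y : Ω → β}
    (h : ∀ ω ω', X ω = X ω' ↔ Y ω = Y ω') : H w X = H w Y :=
  le_antisymm (H_le_of hw fun a b hab => (h a b).2 hab) (H_le_of hw fun a b hab => (h a b).1 hab)

/-- submodularity: if `Z` is a function of `X` and a function of `Y`, and `W` is a function of
`(X, Y)`, then `H W + H Z ≤ H X + H Y` -/
theorem H_sub_of {w : Ω → ℝ} (hw : Law w) {X : Ω → α} {Y : Ω → β} {W : Ω → δ} {Z : Ω → γ}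
    (hX : ∀ ω ω', X ω = X ω' → Z ω = Z ω') (hY : ∀ ω ω', Y ω = Y ω' → Z ω = Z ω')
    (hW : ∀ ω ω', X ω = X ω' → Y ω = Y ω' → W ω = W ω') :
    H w W + H w Z ≤ H w X + H w Y := by
  have h1 := H_submod hw X Y Z
  have h2 : H w (fun ω => (X ω, Z ω)) ≤ H w X :=
    H_le_of hw fun a b hab => Prod.ext hab (hX a b hab)
  have h3 : H w (fun ω => (Y ω, Z ω)) ≤ H w Y :=
    H_le_of hw fun a b hab => Prod.ext hab (hY a b hab)
  have h4 : H w W ≤ H w (fun ω => (X ω, Y ω, Z ω)) := by
    refine H_le_of hw fun a b hab => ?_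
    simp only [Prod.mk.injEq] at hab
    exact hW a b hab.1 hab.2.1
  linarith

/-- subadditivity: if `W` is a function of `(X, Y)` then `H W ≤ H X + H Y` -/
theorem H_add_of {w : Ω → ℝ} (hw : Law w) {X : Ω → α} {Y : Ω → β} {W : Ω → δ}
    (hW : ∀ ω ω', X ω = X ω' → Y ω = Y ω' → W ω = W ω') :
    H w W ≤ H w X + H w Y := by
  have h1 := H_subadd hw X Y
  have h4 : H w W ≤ H w (fun ω => (X ω, Y ω)) := by
    refine H_le_of hw fun a b hab => ?_
    simp only [Prod.mk.injEq] at hab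
    exact hW a b hab.1 hab.2
  linarith

theorem H_push (w : Ω → ℝ) (X : Ω → α) (f : α → β) :
    H (push w X) f = H w (fun ω => f (X ω)) := by
  unfold H
  rw [push_push]

theorem ent_push (w : Ω → ℝ) (X : Ω → α) : ent (push w X) = H w X := rfl

theorem prod_push (w : Ω → ℝ) (w' : Ω' → ℝ) (X : Ω → α) (Y : Ω' → β) :
    prod (push w X) (push w' Y) = push (prod w w') (fun p => (X p.1, Y p.2)) := by
  funext p
  obtain ⟨a, b⟩ := p
  exact (push_prod w w' _ _ a b).symm

/-- pairs -/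
theorem H_pair_fst {w : Ω → ℝ} {w' : Ω' → ℝ} (hw' : Law w') (X : Ω → α) :
    H (prod w w') (fun p => X p.1) = H w X := by
  unfold H
  rw [push_prod_fst w hw' X]

theorem H_pair_snd {w : Ω → ℝ} {w' : Ω' → ℝ} (hw : Law w) (Y : Ω' → β) :
    H (prod w w') (fun p => Y p.2) = H w' Y := by
  unfold H
  rw [push_prod_snd hw w' Y]

/-- swapping the two coordinates -/
theorem H_swap {w : Ω → ℝ} {w' : Ω' → ℝ} (X : Ω × Ω' → α) :
    H (prod w w') X = H (prod w' w) (fun p : Ω' × Ω => X (p.2, p.1)) := by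
  unfold H
  congr 1
  funext a
  unfold push
  rw [← Equiv.sum_comp (Equiv.prodComm Ω' Ω)]
  refine Finset.sum_congr rfl fun p _ => ?_
  obtain ⟨u, v⟩ := p
  change (if X (v, u) = a then prod w w' (v, u) else 0) = _
  unfold prod
  simp only [mul_comm]

/-- three independent variables `((x, y), z)`: a function of `x, z` -/
theorem H_triple_13 {w : Ω → ℝ} {w' : Ω' → ℝ} {w'' : Ω'' → ℝ} (hw' : Law w')
    (X : Ω × Ω'' → α) :
    H (prod (prod w w') w'') (fun p => X (p.1.1, p.2)) = H (prod w w'') X := by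
  have h1 : push (prod (prod w w') w'') (fun p : (Ω × Ω') × Ω'' => (p.1.1, p.2)) =
      prod w w'' := by
    rw [← prod_push (prod w w') w'' (fun p : Ω × Ω' => p.1) (fun z : Ω'' => z),
      push_prod_fst w hw' (fun x : Ω => x), push_id', push_id']
  rw [← h1, H_push]

theorem H_triple_23 {w : Ω → ℝ} {w' : Ω' → ℝ} {w'' : Ω'' → ℝ} (hw : Law w)
    (X : Ω' × Ω'' → α) :
    H (prod (prod w w') w'') (fun p => X (p.1.2, p.2)) = H (prod w' w'') X := by
  have h1 : push (prod (prod w w') w'') (fun p : (Ω × Ω') × Ω'' => (p.1.2, p.2)) =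
      prod w' w'' := by
    rw [← prod_push (prod w w') w'' (fun p : Ω × Ω' => p.2) (fun z : Ω'' => z),
      push_prod_snd hw w' (fun x : Ω' => x), push_id', push_id']
  rw [← h1, H_push]

theorem H_triple_12 {w : Ω → ℝ} {w' : Ω' → ℝ} {w'' : Ω'' → ℝ} (hw'' : Law w'')
    (X : Ω × Ω' → α) :
    H (prod (prod w w') w'') (fun p => X p.1) = H (prod w w') X :=
  H_pair_fst hw'' X

theorem H_full2 {w : Ω → ℝ} {w' : Ω' → ℝ} (hw : Law w) (hw' : Law w') :
    H (prod w w') (fun p : Ω × Ω' => p) = ent w + ent w' := by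
  have h := H_prod hw hw' (fun x : Ω => x) (fun y : Ω' => y)
  rw [H_id w, H_id w'] at h
  exact h

theorem H_full3 {w : Ω → ℝ} {w' : Ω' → ℝ} {w'' : Ω'' → ℝ} (hw : Law w) (hw' : Law w')
    (hw'' : Law w'') :
    H (prod (prod w w') w'') (fun p : (Ω × Ω') × Ω'' => p) = ent w + ent w' + ent w'' := by
  rw [H_full2 (law_prod hw hw') hw'', ← H_id (prod w w'), H_full2 hw hw']

end H137.TwoPow
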